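import Pool.Agent.W23.PP.Defs

/-!
PP project (helper23), task RTP: roots of congruence preserving functions modulo coprime numbers.
-/

namespace Pool.Agent.W20.PP

open Finset
open Pool.Agent.W23.PP
open Pool.Agent.W23.KT

open Classical in
theorem card_crt (a b : ℕ) (ha : 1 ≤ a) (hb : 1 ≤ b) (h : Nat.Coprime a b) (P Q : ℕ → Prop)
    (hP : ∀ m n : ℕ, m ≡ n [MOD a] → (P m ↔ P n)) (hQ : ∀ m n : ℕ, m ≡ n [MOD b] → (Q m ↔ Q n)) :
    ((range (a * b)).filter (fun s => P s ∧ Q s)).card =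
      ((range a).filter P).card * ((range b).filter Q).card := by
  rw [← Finset.card_product]
  refine Finset.card_bij' (fun s _ => (s % a, s % b))
    (fun p _ => (Nat.chineseRemainder h p.1 p.2 : ℕ)) ?_ ?_ ?_ ?_
  · intro s hs
    simp only [mem_filter, mem_range, mem_product] at hs ⊢
    refine ⟨⟨Nat.mod_lt _ (by omega), ?_⟩, Nat.mod_lt _ (by omega), ?_⟩
    · exact (hP _ _ (Nat.mod_modEq s a)).2 hs.2.1
    · exact (hQ _ _ (Nat.mod_modEq s b)).2 hs.2.2
  · intro p hp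
    simp only [mem_filter, mem_range, mem_product] at hp ⊢
    have h1 := (Nat.chineseRemainder h p.1 p.2).2
    refine ⟨Nat.chineseRemainder_lt_mul h p.1 p.2 (by omega) (by omega), ?_, ?_⟩
    · exact (hP _ _ h1.1).2 hp.1.2
    · exact (hQ _ _ h1.2).2 hp.2.2
  · intro s hs
    simp only [mem_filter, mem_range] at hs
    have h1 := Nat.chineseRemainder_modEq_unique h (Nat.mod_modEq s a).symm (Nat.mod_modEq s b).symm
    exact (Nat.ModEq.eq_of_lt_of_lt h1 hs.1
      (Nat.chineseRemainder_lt_mul h _ _ (by omega) (by omega))).symm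
  · intro p hp
    simp only [mem_filter, mem_range, mem_product] at hp
    have h1 := (Nat.chineseRemainder h p.1 p.2).2
    refine Prod.ext ?_ ?_
    · exact (show _ % a = _ % a from h1.1).trans (Nat.mod_eq_of_lt hp.1.1)
    · exact (show _ % b = _ % b from h1.2).trans (Nat.mod_eq_of_lt hp.2.1)

theorem per_iff {φ : ℤ → ℤ} (h : Per φ) {d : ℤ} {m n : ℤ} (hd : d ∣ m - n) :
    d ∣ φ m ↔ d ∣ φ n := by
  have h1 : d ∣ φ m - φ n := hd.trans (h m n)
  constructor
  · intro h2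
    have := dvd_sub h2 h1
    simpa using this
  · intro h2
    have := dvd_add h1 h2
    simpa using this

theorem per_nat {φ : ℤ → ℤ} (h : Per φ) (d : ℕ) (m n : ℕ) (hd : m ≡ n [MOD d]) :
    ((d : ℤ) ∣ φ m ↔ (d : ℤ) ∣ φ n) := by
  apply per_iff h
  exact (Nat.modEq_iff_dvd.1 hd.symm)

open Classical in
theorem root_triples (φ0 φ1 φ2 : ℤ → ℤ) (h0 : Per φ0) (h1 : Per φ1) (h2 : Per φ2) (a b c : ℕ)
    (ha : 1 ≤ a) (hb : 1 ≤ b) (hc : 1 ≤ c)
    (hab : Nat.Coprime a b) (hac : Nat.Coprime a c) (hbc : Nat.Coprime b c) :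
    ∃ Ω : Finset ℕ, Ω.card = nr φ0 a * nr φ1 b * nr φ2 c ∧ (∀ s ∈ Ω, s < a * b * c) ∧
      ∀ n : ℤ, ((a : ℤ) ∣ φ0 n ∧ (b : ℤ) ∣ φ1 n ∧ (c : ℤ) ∣ φ2 n) ↔
        ∃ s ∈ Ω, ((a * b * c : ℕ) : ℤ) ∣ n - s := by
  refine ⟨(range (a * b * c)).filter (fun s : ℕ => ((a : ℤ) ∣ φ0 s ∧ (b : ℤ) ∣ φ1 s) ∧
    (c : ℤ) ∣ φ2 s), ?_, ?_, ?_⟩
  · have k1 := card_crt (a * b) c (Nat.mul_pos ha hb) hc (Nat.Coprime.mul_left hac hbc)
      (fun s : ℕ => ((a : ℤ) ∣ φ0 s ∧ (b : ℤ) ∣ φ1 s)) (fun s : ℕ => (c : ℤ) ∣ φ2 s)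
      (by
        intro m n hmn
        have e1 : m ≡ n [MOD a] := Nat.ModEq.of_mul_right b hmn
        have e2 : m ≡ n [MOD b] := Nat.ModEq.of_mul_left a hmn
        show _ ∧ _ ↔ _ ∧ _
        rw [per_nat h0 a m n e1, per_nat h1 b m n e2]) (per_nat h2 c)
    have k2 := card_crt a b ha hb hab (fun s : ℕ => (a : ℤ) ∣ φ0 s) (fun s : ℕ => (b : ℤ) ∣ φ1 s)
      (per_nat h0 a) (per_nat h1 b)
    have k4 : #((range (a * b)).filter (fun s : ℕ => (a : ℤ) ∣ φ0 s ∧ (b : ℤ) ∣ φ1 s)) =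
        nr φ0 a * nr φ1 b := by
      unfold nr
      convert k2
    rw [← k4]
    unfold nr
    convert k1
  · intro s hs
    simp only [mem_filter, mem_range] at hs
    exact hs.1
  · intro n
    have hpos : (0 : ℤ) < ((a * b * c : ℕ) : ℤ) := by
      exact_mod_cast Nat.mul_pos (Nat.mul_pos ha hb) hc
    have da : (a : ℤ) ∣ ((a * b * c : ℕ) : ℤ) := by
      exact_mod_cast (Dvd.intro _ (by ring : a * (b * c) = a * b * c))
    have db : (b : ℤ) ∣ ((a * b * c : ℕ) : ℤ) := by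
      exact_mod_cast (Dvd.intro _ (by ring : b * (a * c) = a * b * c))
    have dc : (c : ℤ) ∣ ((a * b * c : ℕ) : ℤ) := by
      exact_mod_cast (Dvd.intro _ (by ring : c * (a * b) = a * b * c))
    constructor
    · rintro ⟨q0, q1, q2⟩
      have hr0 : 0 ≤ n % ((a * b * c : ℕ) : ℤ) := Int.emod_nonneg _ hpos.ne'
      have hr1 : n % ((a * b * c : ℕ) : ℤ) < ((a * b * c : ℕ) : ℤ) := Int.emod_lt_of_pos _ hpos
      obtain ⟨s, hs⟩ := Int.eq_ofNat_of_zero_le hr0
      have hdvd : ((a * b * c : ℕ) : ℤ) ∣ n - s := by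
        rw [← hs]
        exact Int.dvd_self_sub_emod
      refine ⟨s, ?_, hdvd⟩
      simp only [mem_filter, mem_range]
      refine ⟨?_, ⟨?_, ?_⟩, ?_⟩
      · rw [hs] at hr1
        exact_mod_cast hr1
      · exact (per_iff h0 (da.trans hdvd)).1 q0
      · exact (per_iff h1 (db.trans hdvd)).1 q1
      · exact (per_iff h2 (dc.trans hdvd)).1 q2
    · rintro ⟨s, hs, hdvd⟩
      simp only [mem_filter, mem_range] at hs
      refine ⟨?_, ?_, ?_⟩
      · exact (per_iff h0 (da.trans hdvd)).2 hs.2.1.1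
      · exact (per_iff h1 (db.trans hdvd)).2 hs.2.1.2
      · exact (per_iff h2 (dc.trans hdvd)).2 hs.2.2

open Classical in
theorem nr_mul (φ : ℤ → ℤ) (h : Per φ) (a b : ℕ) (ha : 1 ≤ a) (hb : 1 ≤ b)
    (hab : Nat.Coprime a b) : nr φ (a * b) = nr φ a * nr φ b := by
  have h1 := card_crt a b ha hb hab (fun s : ℕ => (a : ℤ) ∣ φ s) (fun s : ℕ => (b : ℤ) ∣ φ s)
      (per_nat h a) (per_nat h b)
  have h2 : nr φ (a * b) =
      ((range (a * b)).filter (fun s : ℕ => (a : ℤ) ∣ φ s ∧ (b : ℤ) ∣ φ s)).card := by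
    unfold nr
    congr 1
    apply Finset.filter_congr
    intro s _
    have hco : IsCoprime (a : ℤ) (b : ℤ) := Nat.isCoprime_iff_coprime.2 hab
    push_cast
    constructor
    · intro hd
      exact ⟨(dvd_mul_right _ _).trans hd, (dvd_mul_left _ _).trans hd⟩
    · rintro ⟨x, y⟩
      exact hco.mul_dvd x y
  rw [h2]
  unfold nr
  convert h1

open Classical in
theorem nr_prime (k M N : ℕ) (φ : ℤ → ℤ) (h : Sy k M N φ) (p : ℕ) (hp : p.Prime) :
    nr φ p ≤ k := by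
  obtain ⟨Ω, hΩ, hl⟩ := h.lift p 1 hp le_rfl
  have hl' : ∀ n : ℤ, (p : ℤ) ∣ φ n → ∃ s ∈ Ω, (p : ℤ) ∣ n - s := by
    intro n hn
    have := hl n (by simpa using hn)
    simpa using this
  have key : ∀ a : ℕ, (p : ℤ) ∣ φ a → ∃ s ∈ Ω, (p : ℤ) ∣ (a : ℤ) - s := fun a ha => hl' a ha
  choose! f hf1 hf2 using key
  refine le_trans ?_ hΩ
  unfold nr
  apply Finset.card_le_card_of_injOn f
  · intro a ha
    simp only [coe_filter, Set.mem_ofPred_eq] at ha
    exact hf1 a ha.2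
  · intro a ha b hb hab
    simp only [coe_filter, Set.mem_ofPred_eq, mem_range] at ha hb
    have e1 := hf2 a ha.2
    have e2 := hf2 b hb.2
    rw [← hab] at e2
    have e3 : (p : ℤ) ∣ (a : ℤ) - b := by
      have := dvd_sub e1 e2
      simpa using this
    have e4 : b ≡ a [MOD p] := Nat.modEq_iff_dvd.2 e3
    exact (Nat.ModEq.eq_of_lt_of_lt e4 hb.1 ha.1).symm

theorem nr_one (φ : ℤ → ℤ) : nr φ 1 = 1 := by
  classical
  unfold nr
  simp

theorem nr_sqf (k M N : ℕ) (φ : ℤ → ℤ) (h : Sy k M N φ) : ∀ e : ℕ, Squarefree e →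
    rh φ e = gm (rh φ) e ∧ (nr φ e : ℝ) ≤ kw k e := by
  intro e
  induction e using induction_on_primes with
  | zero => intro h0; exact absurd h0 not_squarefree_zero
  | one =>
    intro _
    constructor
    · unfold rh gm
      simp [nr_one]
    · unfold kw
      simp [nr_one]
  | prime_mul p m hp ih =>
    intro hsq
    have hm : Squarefree m := Squarefree.of_mul_right hsq
    have hco : Nat.Coprime p m := Nat.coprime_of_squarefree_mul hsq
    have hm0 : m ≠ 0 := hm.ne_zero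
    have hpm : p ∉ m.primeFactors := by
      intro hmem
      have := Nat.dvd_of_mem_primeFactors hmem
      exact hp.one_lt.ne' (Nat.eq_one_of_dvd_coprimes hco dvd_rfl this)
    obtain ⟨i1, i2⟩ := ih hm
    have hmul : nr φ (p * m) = nr φ p * nr φ m :=
      nr_mul φ h.per p m hp.one_le (Nat.one_le_iff_ne_zero.2 hm0) hco
    have hpf : (p * m).primeFactors = insert p m.primeFactors := by
      rw [Nat.primeFactors_mul hp.ne_zero hm0, hp.primeFactors]
      rfl
    constructor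
    · have e1 : rh φ (p * m) = rh φ p * rh φ m := by
        unfold rh
        rw [hmul]
        push_cast
        have : (p : ℝ) ≠ 0 := by exact_mod_cast hp.ne_zero
        have : (m : ℝ) ≠ 0 := by exact_mod_cast hm0
        field_simp
      unfold gm
      rw [hpf, Finset.prod_insert hpm, e1, i1]
      rfl
    · unfold kw at i2 ⊢
      rw [hpf, Finset.card_insert_of_notMem hpm, hmul, pow_succ', Nat.cast_mul]
      have e3 : (nr φ p : ℝ) ≤ k := by exact_mod_cast nr_prime k M N φ h p hp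
      exact mul_le_mul e3 i2 (by positivity) (by positivity)

/-- **RTP** -/
theorem RTP : St_RTP :=
  ⟨fun φ0 φ1 φ2 h0 h1 h2 a b c ha hb hc hab hac hbc =>
      root_triples φ0 φ1 φ2 h0 h1 h2 a b c ha hb hc hab hac hbc,
    fun φ h a b ha hb hab => nr_mul φ h a b ha hb hab,
    fun k M N φ h => ⟨fun p hp => nr_prime k M N φ h p hp, nr_sqf k M N φ h⟩⟩

end Pool.Agent.W20.PP

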